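import Pool.Agent.H82.BS.ConvO
import Pool.Agent.H82.BS.Count
import Pool.Graph.R_seed8.TH237.RT.Odd

set_option autoImplicit false

/-!
# The boundaries of the basins of the Syracuse map on the negative odd integers

Let `S` be a set of negative odd integers invariant under the Syracuse map and its inverse, neither empty nor everything,
and let `B` be the set of the odd `n` such that exactly one of `-n`, `-(n + 2)` is in `S`. Then the sum of
`1 / (n √(log n))` over `B` diverges. In particular this is so, unconditionally, for the basins of each of the three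
known cycles; so for infinitely many `N` the number of the odd `n ≤ N` for which exactly one of `-n`, `-(n + 2)` enters the
cycle of `-1` (or of `-5`, or of `-17`) is at least `N / (√(log N) (log log N)^(1 + ε))`, while it is `O(N / √(log N))` for all
`N`. And the orbits of all the negative odd integers enter the three cycles if and only if the series for the set of those
that do so converges.

Method. Cut `[A, 2A)` in `I` cells of equal length and let `u(A)` be the vector of the averages of `f = 1_S - δ` over the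
(negatives of the) odd integers of the cells. Up to an error `k^(-1/4)`, `u(A)` is the mean of the `u(A 3^k / 2^j)`, where
`j` has the law of a sum of `k` geometric variables, for all `k` up to a small multiple of `log (A / I)`. The distance
between two consecutive levels `u(2Y)` and `u(Y)` in `L^1` is bounded by the proportion of the elements of `B` near `Y`,
`4 Y / 3` and `2Y`: with `f(n)` for the value at `-n` and `f(2n) = f(n)`, for `m = 3k + 2` one has `f(m) = f(4k + 3)` and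
`f(4k + 1) = f(6k + 1)` by the definition of `Syr`, so `f(m) = f(2m - 3)` unless `4k + 1` is in `B`. So `u(A)` differs from `u(A (3/4)^k)` by the sum
of the proportions over the levels within `√k` of `A (3/4)^k`; by the pigeonhole principle one can choose `k` such that
this is at most the sum of `1 / (n √(log n))` over the elements of `B` in a range of scales. The sum over a chain of such
steps, from the top, where `u` is small as `S` has a natural density, to the bottom, where the cells are short and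
the coalescence of trajectories forces `|u|` to be large in the mean, is bounded below.
-/

namespace Pool.Agent.Results.MP_005f52_nt.BoundarySeries

open Filter Topology Finset

/-- The Syracuse map. -/
def Syr (N : ℤ) : ℤ := (3 * N + 1) / 2 ^ padicValInt 2 (3 * N + 1)

/-- `S` is invariant under the Syracuse map and its inverse, on the negative odd integers. -/
def Invariant (S : Set ℤ) : Prop := ∀ N : ℤ, N < 0 → Odd N → (N ∈ S ↔ Syr N ∈ S)

/-- The integers whose Syracuse orbit contains `z`. -/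
def Basin (z : ℤ) : Set ℤ := {N | ∃ k : ℕ, Syr^[k] N = z}

/-- The integers whose Syracuse orbit contains `-1`, `-5` or `-17`. -/
def Good : Set ℤ := {N | N ∈ Basin (-1) ∨ N ∈ Basin (-5) ∨ N ∈ Basin (-17)}

/-- The odd `n ≥ 1` such that exactly one of `-n`, `-(n + 2)` is in `S`. -/
def B (S : Set ℤ) : Set ℕ := {n | Odd n ∧ ¬ (-(n : ℤ) ∈ S ↔ -((n : ℤ) + 2) ∈ S)}

/-- The number of elements of `E` in `[1, N]`. -/
noncomputable def count (E : Set ℕ) (N : ℕ) : ℝ := ({n : ℕ | 1 ≤ n ∧ n ≤ N ∧ n ∈ E}.ncard : ℝ)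

/-- `D` is the natural density of `S` among the negative odd integers. -/
def HasDensity (S : Set ℤ) (D : ℝ) : Prop :=
  Tendsto (fun N : ℕ => count {n : ℕ | Odd n ∧ -(n : ℤ) ∈ S} N / (N / 2)) atTop (𝓝 D)

/-- The weight `1 / (n √(log n))`. -/
noncomputable def w (n : ℕ) : ℝ := 1 / (n * √ (Real.log n))

/-! ### Proof -/

open Pool.Agent.TH237.RT in
/-- the corresponding set of negative integers -/
def ext (S : Set ℤ) : Set ℤ := Lift (-1) S

theorem ext_inv {S : Set ℤ} (hS : Invariant S) : Pool.Agent.H499R2.ND.Inv 1 (ext S) :=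
  Pool.Agent.TH237.RT.lift_inv (Or.inr rfl) (fun N h1 h2 => hS N (by omega) (Int.odd_iff.2 h2))

theorem ext_odd {S : Set ℤ} {n : ℕ} (hn : n % 2 = 1) : -1 * (n : ℤ) ∈ ext S ↔ -(n : ℤ) ∈ S := by
  have h := Pool.Agent.TH237.RT.lift_odd (s := -1) (S := S) (x := -(n : ℤ)) (by omega) (by omega)
  unfold ext
  rw [show -1 * (n : ℤ) = -(n : ℤ) by ring]
  exact h

theorem ct_count (S : Set ℤ) (N : ℕ) : Pool.Agent.TH237.RT.ct (-1) S N = count {n : ℕ | Odd n ∧ -(n : ℤ) ∈ S} N := by
  unfold Pool.Agent.TH237.RT.ct count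
  have : {M : ℤ | 0 < -1 * M ∧ ((-1 * M : ℤ) : ℝ) ≤ N ∧ M % 2 = 1 ∧ M ∈ S}
      = (fun n : ℕ => -(n : ℤ)) '' {n : ℕ | 1 ≤ n ∧ n ≤ N ∧ n ∈ {n : ℕ | Odd n ∧ -(n : ℤ) ∈ S}} := by
    ext x
    constructor
    · rintro ⟨h1, h2, h3, h4⟩
      have h2' : -1 * x ≤ (N : ℤ) := by exact_mod_cast h2
      have e : -((x.natAbs : ℕ) : ℤ) = x := by omega
      refine ⟨x.natAbs, ⟨by omega, by omega, Nat.odd_iff.2 (by omega), ?_⟩, e⟩
      rw [e]; exact h4
    · rintro ⟨n, ⟨h1, h2, h3, h4⟩, rfl⟩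
      rw [Nat.odd_iff] at h3
      refine ⟨?_, ?_, ?_, h4⟩
      · show 0 < -1 * -(n : ℤ)
        omega
      · show ((-1 * -(n : ℤ) : ℤ) : ℝ) ≤ N
        push_cast
        have : (n : ℝ) ≤ N := by exact_mod_cast h2
        linarith
      · show (-(n : ℤ)) % 2 = 1
        omega
  rw [this, Set.ncard_image_of_injective _ (fun a b h => by
    have h' : -(a : ℤ) = -(b : ℤ) := h
    omega)]

theorem dens_lim {S : Set ℤ} (hS : Invariant S) {l : ℝ} (hl : Pool.Agent.H499R2.ND.HD (-1) (ext S) l) :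
    HasDensity S l := by
  set P : Set ℤ := {x | -1 * x ∈ ext S} with hP
  have h2P : ∀ x : ℤ, 2 * x ∈ P ↔ x ∈ P := by
    intro x
    show -1 * (2 * x) ∈ ext S ↔ -1 * x ∈ ext S
    rw [show -1 * (2 * x) = 2 * (-1 * x) by ring]
    exact (ext_inv hS).two _
  have h1 : Tendsto (fun X : ℝ => Pool.Agent.H499R2.ND.G P X / X) atTop (𝓝 l) := hl
  have h2 : Tendsto (fun N : ℕ => Pool.Agent.H499R2.ND.G P N / N) atTop (𝓝 l) :=
    h1.comp tendsto_natCast_atTop_atTop
  have h3 : Tendsto (fun N : ℕ => Pool.Agent.H499R2.ND.G P ((N : ℝ) / 2) / ((N : ℝ) / 2)) atTop (𝓝 l) :=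
    h1.comp (tendsto_natCast_atTop_atTop.atTop_div_const (by norm_num))
  have h4 : Tendsto (fun N : ℕ => 2 * (Pool.Agent.H499R2.ND.G P N / N)
      - Pool.Agent.H499R2.ND.G P ((N : ℝ) / 2) / ((N : ℝ) / 2)) atTop (𝓝 l) := by
    have := (h2.const_mul 2).sub h3
    have e : 2 * l - l = l := by ring
    rwa [e] at this
  have h5 : Tendsto (fun N : ℕ => (2 : ℝ) / N) atTop (𝓝 0) := tendsto_const_div_atTop_nhds_zero_nat 2
  have h6 := h4.add h5
  rw [add_zero] at h6
  unfold HasDensity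
  have key : ∀ N : ℕ, 1 ≤ N →
      2 * (Pool.Agent.H499R2.ND.G P N / N) - Pool.Agent.H499R2.ND.G P ((N : ℝ) / 2) / ((N : ℝ) / 2)
        ≤ count {n : ℕ | Odd n ∧ -(n : ℤ) ∈ S} N / (N / 2) ∧
      count {n : ℕ | Odd n ∧ -(n : ℤ) ∈ S} N / (N / 2)
        ≤ 2 * (Pool.Agent.H499R2.ND.G P N / N) - Pool.Agent.H499R2.ND.G P ((N : ℝ) / 2) / ((N : ℝ) / 2) + 2 / N := by
    intro N hN
    have hNR : (0 : ℝ) < N := by exact_mod_cast hN
    obtain ⟨g1, g2⟩ := Pool.Agent.TH237.RT.ct_bd (S := S) (Or.inr rfl : (-1 : ℤ) = 1 ∨ (-1 : ℤ) = -1) (N : ℝ)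
    rw [ct_count] at g1 g2
    have g3 := Pool.Agent.TH237.RT.G_split h2P (N : ℝ)
    have e0 : {x : ℤ | x % 2 = 1 ∧ x ∈ P} = {x | x % 2 = 1 ∧ -1 * x ∈ Pool.Agent.TH237.RT.Lift (-1) S} := rfl
    rw [e0] at g3
    set c := count {n : ℕ | Odd n ∧ -(n : ℤ) ∈ S} N
    set G1 := Pool.Agent.H499R2.ND.G P (N : ℝ)
    set G2 := Pool.Agent.H499R2.ND.G P ((N : ℝ) / 2)
    set G3 := Pool.Agent.H499R2.ND.G {x | x % 2 = 1 ∧ -1 * x ∈ Pool.Agent.TH237.RT.Lift (-1) S} (N : ℝ)
    have e1 : 2 * (G1 / N) - G2 / ((N : ℝ) / 2) = (G1 - G2) / ((N : ℝ) / 2) := by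
      field_simp
    have e2 : (G1 - G2) / ((N : ℝ) / 2) + 2 / N = (G1 - G2 + 1) / ((N : ℝ) / 2) := by
      field_simp
    rw [e1, e2]
    constructor
    · apply div_le_div_of_nonneg_right _ (by positivity)
      linarith
    · apply div_le_div_of_nonneg_right _ (by positivity)
      linarith
  refine tendsto_of_tendsto_of_tendsto_of_le_of_le' h4 h6 ?_ ?_
  · filter_upwards [eventually_ge_atTop 1] with N hN
    exact (key N hN).1
  · filter_upwards [eventually_ge_atTop 1] with N hN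
    exact (key N hN).2

theorem HD_of {S : Set ℤ} (hS : Invariant S) {D : ℝ} (hD : HasDensity S D) :
    Pool.Agent.H499R2.ND.HD (-1) (ext S) D := by
  obtain ⟨l, -, -, hl⟩ := Pool.Agent.H499R2.ND.dens_side (d := 1) odd_one isCoprime_one_left (Or.inr rfl) (ext_inv hS)
  rw [tendsto_nhds_unique hD (dens_lim hS hl)]
  exact hl

theorem sum_eq (S : Set ℤ) {N : ℕ} (hN : 1 ≤ N) {X : ℝ} (hX : 0 ≤ X) :
    Pool.Agent.Y965.SI.AS (Pool.Agent.H82.BS.hd (Pool.Agent.Y965.SI.ind (-1) (ext S))) N X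
      = ∑ n ∈ Finset.Ico N ⌈X⌉₊, (B S).indicator w n := by
  classical
  unfold Pool.Agent.Y965.SI.AS
  rw [Int.ceil_natCast]
  have hc : ⌈X⌉ = ((⌈X⌉₊ : ℕ) : ℤ) := (Int.natCast_ceil_eq_ceil hX).symm
  rw [hc]
  refine sum_nbij' (fun x => x.toNat) (fun m => (m : ℤ)) ?_ ?_ ?_ ?_ ?_
  · intro x hx
    rw [mem_Ico] at hx ⊢
    omega
  · intro m hm
    rw [mem_Ico] at hm ⊢
    omega
  · intro x hx
    rw [mem_Ico] at hx
    show ((x.toNat : ℕ) : ℤ) = x
    omega
  · intro m _
    show ((m : ℤ)).toNat = m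
    omega
  · intro x hx
    rw [mem_Ico] at hx
    obtain ⟨n, rfl⟩ : ∃ n : ℕ, x = n := ⟨x.toNat, by omega⟩
    have hn : 1 ≤ n := by omega
    rw [Int.toNat_natCast]
    unfold Pool.Agent.H82.BS.hd Pool.Agent.H82.BS.Dj
    have habs : |((n : ℤ) : ℝ)| = n := by
      rw [Int.cast_natCast]; exact abs_of_nonneg (Nat.cast_nonneg n)
    have hcast : (((n : ℤ)) : ℝ) = (n : ℝ) := Int.cast_natCast n
    rw [habs, hcast]
    rcases Nat.mod_two_eq_zero_or_one n with h | h
    · rw [if_neg (by omega), zero_div, Set.indicator_of_notMem]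
      rintro ⟨h3, -⟩
      rw [Nat.odd_iff] at h3
      omega
    · rw [if_pos (by omega)]
      have i1 : Pool.Agent.Y965.SI.ind (-1) (ext S) (n : ℤ) = if -(n : ℤ) ∈ S then 1 else 0 := by
        unfold Pool.Agent.Y965.SI.ind
        simp only [ext_odd h]
      have i2 : Pool.Agent.Y965.SI.ind (-1) (ext S) ((n : ℤ) + 2) = if -((n : ℤ) + 2) ∈ S then 1 else 0 := by
        unfold Pool.Agent.Y965.SI.ind
        have e : ((n : ℤ) + 2) = ((n + 2 : ℕ) : ℤ) := by push_cast; ring
        rw [e]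
        simp only [ext_odd (show (n + 2) % 2 = 1 by omega)]
      rw [i1, i2]
      by_cases h1 : -(n : ℤ) ∈ S <;> by_cases h2 : -((n : ℤ) + 2) ∈ S
      · rw [if_pos h1, if_pos h2, Set.indicator_of_notMem (by
          rintro ⟨-, h3⟩
          exact h3 ⟨fun _ => h2, fun _ => h1⟩)]
        simp
      · rw [if_pos h1, if_neg h2, Set.indicator_of_mem (show n ∈ B S from
          ⟨Nat.odd_iff.2 h, fun h3 => h2 (h3.1 h1)⟩)]
        unfold w
        norm_num
      · rw [if_neg h1, if_pos h2, Set.indicator_of_mem (show n ∈ B S from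
          ⟨Nat.odd_iff.2 h, fun h3 => h1 (h3.2 h2)⟩)]
        unfold w
        norm_num
      · rw [if_neg h1, if_neg h2, Set.indicator_of_notMem (by
          rintro ⟨-, h3⟩
          exact h3 ⟨fun h4 => absurd h4 h1, fun h4 => absurd h4 h2⟩)]
        simp

theorem part1 {δ : ℝ} (hδ : 0 < δ) : ∃ c : ℝ, 0 < c ∧ ∃ N₀ : ℕ, ∀ S : Set ℤ, Invariant S →
    ∀ D : ℝ, HasDensity S D → δ ≤ D → D ≤ 1 - δ → ∀ N : ℕ, N₀ ≤ N →
      c ≤ ∑ n ∈ Finset.Ico N ⌈Real.exp ((N : ℝ) ^ 64)⌉₊, (B S).indicator w n := by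
  rcases le_or_gt δ (1 / 2) with hδ1 | hδ1
  · obtain ⟨c, N₀, hc, hN₀, h⟩ := Pool.Agent.H82.BS.jumpsO hδ hδ1
    refine ⟨c, hc, N₀, fun S hS D hD h1 h2 N hN => ?_⟩
    have h3 := h (ext S) (ext_inv hS) D (HD_of hS hD) h1 h2 N hN
    rwa [sum_eq S (by omega) (Real.exp_pos _).le] at h3
  · refine ⟨1, one_pos, 0, fun S _ D _ h1 h2 => ?_⟩
    exfalso; linarith

theorem part2 {S : Set ℤ} (hS : Invariant S) (h1 : ∃ N : ℤ, N < 0 ∧ Odd N ∧ N ∈ S)
    (h2 : ∃ N : ℤ, N < 0 ∧ Odd N ∧ N ∉ S) : ¬ Summable ((B S).indicator w) := by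
  obtain ⟨D, -, -, hD⟩ := Pool.Agent.H499R2.ND.dens_side (d := 1) odd_one isCoprime_one_left (Or.inr rfl) (ext_inv hS)
  obtain ⟨M, hM, hMo, hMS⟩ := h1
  obtain ⟨M', hM', hMo', hMS'⟩ := h2
  rw [Int.odd_iff] at hMo hMo'
  have g1 : M ∈ ext S := (Pool.Agent.TH237.RT.lift_odd (s := -1) hMo (by omega)).2 hMS
  have g2 : M' ∉ ext S := fun h => hMS' ((Pool.Agent.TH237.RT.lift_odd (s := -1) hMo' (by omega)).1 h)
  have hD1 := Pool.Agent.H499R2.ND.one_pos (Or.inr rfl) (ext_inv hS) g1 (by omega) hD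
  have hD2 := Pool.Agent.H499R2.ND.one_lt (Or.inr rfl) (ext_inv hS) g2 (by omega) hD
  obtain ⟨c, hc, N₀, h⟩ := part1 (show 0 < min D (1 - D) from lt_min hD1 (by linarith))
  apply Pool.Agent.H82.BS.not_summable_of (c := c) (N₀ := N₀) _ hc
  · intro N hN
    refine ⟨_, h S hS D (dens_lim hS hD) (min_le_left _ _) (by linarith [min_le_right D (1 - D)]) N hN⟩
  · intro n
    apply Set.indicator_nonneg
    intro m _
    unfold w
    positivity

theorem syr_eq {N M : ℤ} (v : ℕ) (h : 3 * N + 1 = 2 ^ v * M) (hM : M % 2 = 1) : Syr N = M :=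
  Pool.Agent.TH237.RT.Sy_eq h hM

theorem s1 : Syr (-1) = -1 := syr_eq 1 (by norm_num) (by norm_num)
theorem s5 : Syr (-5) = -7 := syr_eq 1 (by norm_num) (by norm_num)
theorem s7 : Syr (-7) = -5 := syr_eq 2 (by norm_num) (by norm_num)
theorem s17 : Syr (-17) = -25 := syr_eq 1 (by norm_num) (by norm_num)
theorem s25 : Syr (-25) = -37 := syr_eq 1 (by norm_num) (by norm_num)
theorem s37 : Syr (-37) = -55 := syr_eq 1 (by norm_num) (by norm_num)
theorem s55 : Syr (-55) = -41 := syr_eq 2 (by norm_num) (by norm_num)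
theorem s41 : Syr (-41) = -61 := syr_eq 1 (by norm_num) (by norm_num)
theorem s61 : Syr (-61) = -91 := syr_eq 1 (by norm_num) (by norm_num)
theorem s91 : Syr (-91) = -17 := syr_eq 4 (by norm_num) (by norm_num)

theorem per1 : Syr^[0 + 1] (-1) = -1 := s1
theorem per5 : Syr^[1 + 1] (-5) = -5 := by
  simp only [Function.iterate_succ_apply, s5, s7]
  rfl
theorem per17 : Syr^[6 + 1] (-17) = -17 := by
  simp only [Function.iterate_succ_apply, s17, s25, s37, s55, s41, s61, s91]
  rfl

theorem basin_iff {z : ℤ} {p : ℕ} (hp : Syr^[p + 1] z = z) (N : ℤ) : N ∈ Basin z ↔ Syr N ∈ Basin z := by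
  constructor
  · rintro ⟨k, hk⟩
    rcases k with _ | k
    · have h0 : N = z := hk
      subst h0
      exact ⟨p, by rwa [← Function.iterate_succ_apply]⟩
    · exact ⟨k, by rwa [Function.iterate_succ_apply] at hk⟩
  · rintro ⟨k, hk⟩
    exact ⟨k + 1, by rwa [Function.iterate_succ_apply]⟩

/-- the orbit of an element of a finite set mapped into itself -/
theorem stay {Z : Finset ℤ} (hZ : ∀ y ∈ Z, Syr y ∈ Z) {y : ℤ} (hy : y ∈ Z) (k : ℕ) : Syr^[k] y ∈ Z := by
  induction k with
  | zero => exact hy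
  | succ k ih => rw [Function.iterate_succ_apply']; exact hZ _ ih

theorem not5 {z : ℤ} (h1 : z ≠ -5) (h2 : z ≠ -7) : (-5 : ℤ) ∉ Basin z := by
  rintro ⟨k, hk⟩
  have h := stay (Z := {-5, -7}) (by
    intro y hy
    simp only [Finset.mem_insert, Finset.mem_singleton] at hy ⊢
    rcases hy with rfl | rfl
    · exact Or.inr s5
    · exact Or.inl s7) (y := -5) (by simp) k
  rw [hk] at h
  simp only [Finset.mem_insert, Finset.mem_singleton] at h
  rcases h with h | h
  · exact h1 h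
  · exact h2 h

theorem not1 {z : ℤ} (h1 : z ≠ -1) : (-1 : ℤ) ∉ Basin z := by
  rintro ⟨k, hk⟩
  have h := stay (Z := {-1}) (by
    intro y hy
    simp only [Finset.mem_singleton] at hy ⊢
    subst hy
    exact s1) (y := -1) (by simp) k
  rw [hk] at h
  simp only [Finset.mem_singleton] at h
  exact h1 h

theorem basin_div {z : ℤ} (hz : z = -1 ∨ z = -5 ∨ z = -17) : ¬ Summable ((B (Basin z)).indicator w) := by
  have hzz : z ∈ Basin z := ⟨0, rfl⟩
  rcases hz with rfl | rfl | rfl
  · exact part2 (fun N _ _ => basin_iff per1 N) ⟨-1, by norm_num, by decide, hzz⟩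
      ⟨-5, by norm_num, by decide, not5 (by norm_num) (by norm_num)⟩
  · exact part2 (fun N _ _ => basin_iff per5 N) ⟨-5, by norm_num, by decide, hzz⟩
      ⟨-1, by norm_num, by decide, not1 (by norm_num)⟩
  · exact part2 (fun N _ _ => basin_iff per17 N) ⟨-17, by norm_num, by decide, hzz⟩
      ⟨-1, by norm_num, by decide, not1 (by norm_num)⟩

theorem good_inv : Invariant Good := by
  intro N _ _
  show (N ∈ Basin (-1) ∨ N ∈ Basin (-5) ∨ N ∈ Basin (-17)) ↔
    (Syr N ∈ Basin (-1) ∨ Syr N ∈ Basin (-5) ∨ Syr N ∈ Basin (-17))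
  rw [← basin_iff per1 N, ← basin_iff per5 N, ← basin_iff per17 N]

/-- (1) For every `δ > 0` there are `c > 0` and `N₀` such that for every invariant set `S` with a natural density between
`δ` and `1 - δ` among the negative odd integers, and every `N ≥ N₀`, the sum of `1 / (n √(log n))` over the elements of
`B S` with `N ≤ n < exp (N^64)` is at least `c`.
(2) For every invariant set `S` which contains a negative odd integer but not all of them the sum of
`1 / (n √(log n))` over `B S` is infinite.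
(3) This is so for the basin `S` of each of the three known cycles, and for every `ε > 0` there are infinitely many `N` such
that `B S` has at least `N / (√(log N) (log log N)^(1 + ε))` elements `n ≤ N`.
(4) The orbits of all the negative odd integers enter the three known cycles if and only if the sum of
`1 / (n √(log n))` over the odd `n` such that exactly one of the orbits of `-n`, `-(n + 2)` enters one of them is finite;
also if and only if for some `ε > 0` the number of these `n ≤ N` is less than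
`N / (√(log N) (log log N)^(1 + ε))` for all large `N`. -/
theorem result :
    (∀ δ : ℝ, 0 < δ → ∃ c : ℝ, 0 < c ∧ ∃ N₀ : ℕ, ∀ S : Set ℤ, Invariant S →
      ∀ D : ℝ, HasDensity S D → δ ≤ D → D ≤ 1 - δ → ∀ N : ℕ, N₀ ≤ N →
        c ≤ ∑ n ∈ Finset.Ico N ⌈Real.exp ((N : ℝ) ^ 64)⌉₊, (B S).indicator w n) ∧
    (∀ S : Set ℤ, Invariant S → (∃ N : ℤ, N < 0 ∧ Odd N ∧ N ∈ S) → (∃ N : ℤ, N < 0 ∧ Odd N ∧ N ∉ S) →
      ¬ Summable ((B S).indicator w)) ∧
    (∀ z : ℤ, z = -1 ∨ z = -5 ∨ z = -17 → ¬ Summable ((B (Basin z)).indicator w) ∧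
      ∀ ε : ℝ, 0 < ε → ∀ N₀ : ℕ, ∃ N : ℕ, N₀ ≤ N ∧
        N / (√ (Real.log N) * (Real.log (Real.log N)) ^ (1 + ε)) ≤ count (B (Basin z)) N) ∧
    ((∀ N : ℤ, N < 0 → Odd N → N ∈ Good) ↔ Summable ((B Good).indicator w)) ∧
    ((∀ N : ℤ, N < 0 → Odd N → N ∈ Good) ↔ ∃ ε : ℝ, 0 < ε ∧ ∃ N₀ : ℕ, ∀ N : ℕ, N₀ ≤ N →
      count (B Good) N < N / (√ (Real.log N) * (Real.log (Real.log N)) ^ (1 + ε))) := by
  have hB : (∀ N : ℤ, N < 0 → Odd N → N ∈ Good) → B Good = ∅ := by
    intro h
    ext n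
    simp only [Set.mem_empty_iff_false, iff_false]
    rintro ⟨h1, h3⟩
    rw [Nat.odd_iff] at h1
    exact h3 ⟨fun _ => h _ (by omega) (Int.odd_iff.2 (by omega)), fun _ => h _ (by omega) (Int.odd_iff.2 (by omega))⟩
  have h1R : (-1 : ℤ) ∈ Good := Or.inl ⟨0, rfl⟩
  have hnot : ¬ (∀ N : ℤ, N < 0 → Odd N → N ∈ Good) → ¬ Summable ((B Good).indicator w) := by
    intro h
    push Not at h
    exact part2 good_inv ⟨-1, by norm_num, by decide, h1R⟩ h
  refine ⟨fun δ hδ => part1 hδ, fun S hS => part2 hS, fun z hz => ⟨basin_div hz, fun ε hε N₀ => ?_⟩, ⟨?_, ?_⟩, ⟨?_, ?_⟩⟩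
  · exact Pool.Agent.H82.BS.count_inf (B := B (Basin z)) (basin_div hz) hε N₀
  · intro h
    rw [hB h, Set.indicator_empty]
    exact summable_zero
  · intro h
    by_contra h2
    exact hnot h2 h
  · intro h
    refine ⟨1, one_pos, 16, fun N hN => ?_⟩
    rw [hB h]
    have e : count ∅ N = 0 := by unfold count; simp
    rw [e]
    have hNR : (16 : ℝ) ≤ N := by exact_mod_cast hN
    have h3 : 1 < Real.log N := by
      rw [Real.lt_log_iff_exp_lt (by linarith)]
      have := Real.exp_one_lt_d9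
      linarith
    have h4 : 0 < Real.log (Real.log N) := Real.log_pos h3
    have h5 : 0 < √ (Real.log N) := Real.sqrt_pos.2 (by linarith)
    positivity
  · rintro ⟨ε, hε, N₀, h⟩
    by_contra h2
    obtain ⟨N, hN, h3⟩ := Pool.Agent.H82.BS.count_inf (B := B Good) (hnot h2) hε N₀
    exact absurd (h N hN) (not_lt.2 h3)

end Pool.Agent.Results.MP_005f52_nt.BoundarySeries
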