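import Pool.Agent.H82.ZO.Odd

set_option autoImplicit false

/-!
# A zero-one law in short intervals of negative odd integers

Let `δ > 0`, `0 < θ < 1`, `η > 0`. For all large `N`, every interval `[a, a + N)`, however far, and every set `S` of
negative odd integers invariant under the Syracuse map and its inverse: if at least `δ N` of the odd integers
`-(2 n + 1)`, `a ≤ n < a + N`, are in `S`, then for each `H ≤ N ^ θ` at least `p N` of the blocks of `H` consecutive
odd integers in it consist, up to `η H` of them, of elements of `S`, whose orbits merge within `9 log N` steps at one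
element of `S`. With `S` the set of the negative odd integers whose orbit does not enter the three known cycles: if in
some interval all but fewer than `p N` of the blocks of length `H` have more than `η H` elements whose orbits enter the
cycles, then the orbits of all but fewer than `δ N` odd integers of the long interval enter the cycles.
-/

namespace Pool.Agent.Results.MP_005f52_nt.ZeroOneLaw

open Finset Pool.Agent.H82.ZO

open Classical in
/-- Let `δ > 0`, `0 < θ < 1` and `η > 0`. There are `p > 0` and `N₀` such that for every `N ≥ N₀`, every `a`, every set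
`S` of integers with `x ∈ S ↔ Syr x ∈ S` for the negative odd `x` and with at least `δ N` elements of the form
`-(2 n + 1)`, `a ≤ n < a + N`, and each `1 ≤ H ≤ N ^ θ`, at least `p N` of the `n` in `[a, a + N)` are such that for
some `v` in `S` the Syracuse orbits of at least `(1 - η) H` of the odd integers `-(2 (n + h) + 1)`, `0 ≤ h < H`, reach
`v` in at most `9 log N` steps. -/
theorem result (δ θ η : ℝ) (hδ : 0 < δ) (hθ0 : 0 < θ) (hθ1 : θ < 1) (hη : 0 < η) :
    ∃ p : ℝ, 0 < p ∧ ∃ N₀ : ℕ, ∀ N : ℕ, N₀ ≤ N → ∀ (a : ℕ) (S : Set ℤ),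
      (∀ x : ℤ, x < 0 → Odd x → (x ∈ S ↔ Syr x ∈ S)) →
      δ * N ≤ (((Finset.Ico a (a + N)).filter (fun n : ℕ => -(2 * (n : ℤ) + 1) ∈ S)).card : ℝ) →
      ∀ H : ℕ, 1 ≤ H → (H : ℝ) ≤ (N : ℝ) ^ θ →
        p * N ≤ (((Finset.Ico a (a + N)).filter (fun n : ℕ => ∃ v ∈ S,
          (1 - η) * H ≤ (((Finset.range H).filter (fun h : ℕ => ∃ k : ℕ, (k : ℝ) ≤ 9 * Real.log N ∧
            Syr^[k] (-(2 * ((n : ℤ) + h) + 1)) = v)).card : ℝ))).card : ℝ) := by
  obtain ⟨p, hp, N₀, h⟩ := oddAll δ θ η hδ hθ0 hθ1 hη
  refine ⟨p, hp, N₀, fun N hN a S hS hSδ H hH1 hH2 => ?_⟩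
  refine (h N hN a S (fun x hx hx1 => hS x hx (Int.odd_iff.2 hx1)) (hSδ.trans (odd_sum S a N)) H hH1 hH2).trans ?_
  have h3 : (WinO S η (9 * Real.log N) H a N).card ≤
      ((Finset.Ico a (a + N)).filter (fun n : ℕ => ∃ v ∈ S,
          (1 - η) * H ≤ (((Finset.range H).filter (fun h : ℕ => ∃ k : ℕ, (k : ℝ) ≤ 9 * Real.log N ∧
            Syr^[k] (-(2 * ((n : ℤ) + h) + 1)) = v)).card : ℝ))).card := by
    apply card_le_card
    intro n hn
    unfold WinO at hn
    rw [mem_filter] at hn ⊢
    obtain ⟨hn1, v, hv, -, -, hn2⟩ := hn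
    exact ⟨hn1, v, hv, hn2⟩
  exact_mod_cast h3

end Pool.Agent.Results.MP_005f52_nt.ZeroOneLaw
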